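import Pool.Agent.U191.FK.Num

/-!
# Injectivity of the Abel-Jacobi maps over number fields for quotients of products of curves

`𝒱` is a class of smooth projective geometrically irreducible varieties over the field `k` of the
algebraic numbers closed under products, `C` the Chow groups with rational coefficients, `H` a Weil
cohomology theory with complex coefficients and `D` the Hodge decompositions (singular cohomology),
`A` the rational Abel-Jacobi maps. For `V` in `𝒱` the elements `X` of `F V` are the varieties over number
fields which become `V` over `k`, represented by the images of the injective base change maps
`CH^m(X) ⊗ ℚ → CH^m(V) ⊗ ℚ`.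

Let `X = C_1 × ⋯ × C_n × B`, where `B` has dimension zero and the `C_i` are curves with actions of
finite groups `G_i`, all irreducible characters of which have values in a number field `K` which is
totally real (for example symmetric and dihedral groups, and all other groups whose elements are
conjugate to their inverses), or imaginary quadratic, or a CM field of degree four. A pair `(V, e)` of
level at most `ℓ` is one of the following: `(X, e)` with `e = ∑ a(γ) [γ]`, where `a` is an element of
the rational group algebra of `G_1 × ⋯ × G_n` which is zero on `H^{p,q}(X)` for `|p - q| > ℓ`; or
`(Y, Δ)`, where `Y` is a quotient of `X`, or a direct summand cut out by an element of the group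
algebra, of Hodge level at most `ℓ`. No group action over the number field is assumed below: only the
variety over the algebraic numbers is built from quotients.

**Theorem.** (1) Let `X` be a variety over a number field such that the motive of `X` over the
algebraic numbers is built from motives of level at most one. Then for all `m` the space
`CH^m_hom(X) ⊗ ℚ` has finite dimension, and the Abel-Jacobi map
`AJ^m : CH^m_hom(X) ⊗ ℚ → J^(2m-1)(X) ⊗ ℚ` is injective.

(2) Let `Y` be a quotient of a product of curves as above, or a direct summand of the same dimension
which is cut out by an element of the group algebra, such that `H^{p,q}(Y) = 0` if `|p - q| > 1` and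
`min (p, q) < c`. Then the same holds for the cycles of dimension less than `c` on all varieties over
number fields which become `Y` over the algebraic numbers.

(3) For every `ℓ`: if the Abel-Jacobi maps of all varieties over number fields which become products of
at most `ℓ` curves are injective, then the statements on injectivity in (1) and (2) hold with `ℓ` instead of one; and
the same for the finiteness of the dimension.
-/

universe u v

namespace Pool.Agent.Results.MP_a1cc03_ag.CurveQuotients

open Pool.Agent.H914 Pool.Agent.W492.BB Pool.Agent.TH133 Pool.Agent.U191.EY Pool.Agent.U191.FL

/-- **Injectivity of the Abel-Jacobi maps over number fields**, and the finiteness of the groups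
`CH^m_hom(X) ⊗ ℚ`, for the varieties over number fields which are built from products of curves with
actions of finite groups: of level at most one, and of level at most `ℓ` if these properties hold for
the products of at most `ℓ` curves. -/
theorem result {k : Type u} [Field k] {𝒱 : VarClass k} {C : TheoryData.{u, v, 0} 𝒱 ℚ}
    [IsChowProj C] {H : WeilTheoryData.{u, v, 0} C ℂ} [IsWeilProj H]
    {D : ∀ V : 𝒱.Obj, HodgeRing (H.A V)} (hD : IsHodgeTheory H D) (hN : KimuraTheorem H)
    (A : AbelJacobiMaps H) {F : Forms C} (hF : IsFormsTheory F) (hMW : MordellWeil H F) :
    ForBuilt H D F 1 (fun V X m => AJInjectiveNF A V X m ∧ FiniteRank H V X m) ∧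
      ∀ ℓ : ℕ,
        (ForProducts F ℓ (AJInjectiveNF A) → ForBuilt H D F ℓ (AJInjectiveNF A)) ∧
        (ForProducts F ℓ (FiniteRank H) → ForBuilt H D F ℓ (FiniteRank H)) :=
  main_nf hD hN A hF hMW

end Pool.Agent.Results.MP_a1cc03_ag.CurveQuotients
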