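import Pool.Agent.U672.AJ.Maps

/-!
# Injectivity of the Abel-Jacobi maps by cutting and pasting

`k ⊂ ℂ` is a number field and `D` the triangulated category of geometric motives over `k` with rational
coefficients, in the form of its standard properties (`PasteFacts`). For an object `A` let
`CH m A` be the group of the morphisms `A → ℚ(m)[2m]` whose Hodge realization is zero, and
`J m A = Ext¹(ℚ, H^(2m-1)(A)(m))`, the group of extensions of mixed Hodge structures; the realization in the
derived category of mixed Hodge structures gives the map `aj m : CH m A → J m A` (`AbelJacobi`). For a smooth
projective scheme `X` it is the Abel-Jacobi map of the problem.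

**Theorem.** Let `X` be a smooth proper scheme, of any dimension, which can be obtained by cutting and pasting
and by finite free coverings from
* the closed subschemes of affine spaces, of any dimension, defined by binomials and at most one trinomial
  (systems of excess at most one; the *excess* of a system of polynomials is the sum of
  (number of terms - 2) over its members with at least three terms), singular or not,
* all schemes of dimension at most one,
* all smooth proper schemes whose Abel-Jacobi maps are injective in all codimensions.
Then the Abel-Jacobi maps of `X` are injective in all codimensions; and so are those of all Chow motives which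
are direct factors of sums of Tate twists of motives of such schemes.

The schemes which are cut and pasted need not be smooth or proper, only `X` is. More generally, if the
Abel-Jacobi maps are injective for all smooth proper schemes of dimension at most `N`, then this holds for
all smooth proper `X` in the class with `N` instead of one: for instance hypersurfaces with at most `N + 2`
terms in affine spaces of any dimension can be used.

The proof: the motive with compact support of a system of excess at most `N` is in the thick
triangulated subcategory generated by the Tate twists of the motives of schemes of dimension at most `N`. Hence
the motive of `X` is a direct factor of a sum of Tate twists of motives of smooth proper schemes with injective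
Abel-Jacobi maps.
-/

set_option autoImplicit false

open CategoryTheory MonoidalCategory AlgebraicGeometry Pool.Agent.TH137.DG Pool.Agent.Y116.UV
  Pool.Agent.Z125.UN Pool.Agent.U672.SF Pool.Agent.U672.AJ

namespace Pool.Agent.Results.MP_a1cc03_ag.CutAndPaste

universe v u w

/-- **Theorem.** (1) Let the Abel-Jacobi maps of the smooth proper schemes of dimension at most one be injective
(this is known). If a smooth proper scheme `X` is pasted from systems of excess at most one, schemes of
dimension at most one and smooth proper schemes with injective Abel-Jacobi maps, then the Abel-Jacobi maps of
`X` are injective in all codimensions; and the same is true for all direct factors of sums of Tate twists of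
motives of such schemes. (2) The same with `N` instead of one. -/
theorem result {k : Type} [Field k] [NumberField k] {C : Type u} [Category.{v} C]
    [MonoidalCategory C] [SymmetricCategory C] [Preadditive C] [Linear ℚ C]
    [Limits.HasZeroObject C] [HasShift C ℤ] [∀ n : ℤ, (shiftFunctor C n).Additive]
    [Pretriangulated C] {D : Motives k C} (hD : PasteFacts D) (S : AbelJacobi.{v, u, w} D)
    (hcurves : ∀ X, SmoothProper X → topologicalKrullDim X.left ≤ (1 : ℕ) →
      IsInjective S (D.M X)) :
    (∀ A : C, Summand D (fun X => SmoothProper X ∧
        Pasted 1 (fun Y => SmoothProper Y ∧ IsInjective S (D.M Y)) X) A → IsInjective S A) ∧
    ∀ N : ℕ, (∀ X, SmoothProper X → topologicalKrullDim X.left ≤ N → IsInjective S (D.M X)) →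
      ∀ A : C, Summand D (fun X => SmoothProper X ∧
        Pasted N (fun Y => SmoothProper Y ∧ IsInjective S (D.M Y)) X) A → IsInjective S A := by
  have key : ∀ N : ℕ,
      (∀ X, SmoothProper X → topologicalKrullDim X.left ≤ N → IsInjective S (D.M X)) →
      ∀ A : C, Summand D (fun X => SmoothProper X ∧
        Pasted N (fun Y => SmoothProper Y ∧ IsInjective S (D.M Y)) X) A → IsInjective S A := by
    intro N h A hA
    refine summand_inj (fun X hX => ?_) hA
    exact summand_inj (fun Y hY => hY.2)
      (pasted_summand hD (fun Y hY => hY.1) (fun Y h1 h2 => ⟨h1, h Y h1 h2⟩) X hX.2 hX.1)
  exact ⟨key 1 hcurves, key⟩

end Pool.Agent.Results.MP_a1cc03_ag.CutAndPaste
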