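import Pool.Agent.U227.MotKerMain

/-!
# Group actions and the higher Abel-Jacobi maps

Let `C` be a `ℚ`-linear category with direct sums and split idempotents, for example the category of the Chow
motives over a number field `k` in the complex numbers, let `A m` and `J m` be additive functors to
`ℚ`-vector spaces and let `A m ⟶ J m` be natural maps. The example is the Abel-Jacobi map `AJ^m` from the group
`A m (M)` of the homologically trivial cycles of codimension `m` to the intermediate Jacobian `J m (M)`,
both tensored with `ℚ`.

Let a finite group `G` act on an object `M`, for example on the motive of a variety `X` on which `G` acts. The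
part of `M` fixed by a subgroup `H` is the motive of `X/H`. Let `P` be the property that the maps with
index in a set `I` are injective. We show:

* `P` holds for `X` if and only if every irreducible rational representation `ρ` of `G` which occurs in
  `End(M)` modulo the endomorphisms factoring through objects with `P` has a nonzero vector fixed by a
  subgroup `H` such that `P` holds for `X/H`;
* `P` holds for `X/H` if it holds for all `X/D_j` and every such `ρ` with a nonzero vector fixed by `H` has a
  nonzero vector fixed by some `D_j`;
* if `c` is an involution, then `P` holds for `X` if and only if it does for `X/c` and `X/[G,c]`; if `c`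
  is contained in a nonabelian simple subgroup, if and only if for `X/c`; if a subgroup is partitioned into
  subgroups `D_j`, at least two, if and only if for all `X/D_j`; if `G` is commutative, if and only if for
  all `X/K`, `G/K` cyclic;
* if `P` does not hold for `X`, but for `X/H` for all subgroups `H` of prime order, then an irreducible
  rational representation occurs in which the elements different from one fix only `0` (so `G` is
  a Frobenius complement), the commutative subgroups and the subgroups of order `p q` are cyclic, and `G`
  has at most one involution;
* if the kernel of the map with index `m` for `X` is finite-dimensional, then the dimensions of the kernels for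
  the quotients `X/H` satisfy all Brauer relations: `∑ c_j dim_j = 0` if `∑ c_j Ind 1_(D_j) = 0`.

The representation theoretic criteria (involutions, simple groups, partitions, groups of order `p q`) are from
the library (`X252`, `X328`), where they are applied to the Künneth components. That the relations between
permutation representations give relations between the groups of cycles of quotients is a classical idea (Kani
and Rosen for Jacobians, Inose and Mizukami for zero-cycles on surfaces with `p_g = 0`).
-/

open CategoryTheory CategoryTheory.Limits Pool.Agent.X252.SCT Pool.Agent.U227.Grp
  Pool.Agent.U227.Mot Pool.Agent.U227.Ker

universe v u w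

namespace Pool.Agent.Results.MP_a1cc03_ag.GroupActions

/-- **Group actions and the higher Abel-Jacobi maps.** -/
theorem result {C : Type u} [Category.{v} C] [Preadditive C] [Linear ℚ C] [IsIdempotentComplete C]
    [HasZeroObject C] [HasBinaryBiproducts C] {κ : Type} (T : NatMaps.{v, u, w} C κ) (I : Set κ)
    {G : Type} [Group G] [Finite G] {M : C} (a : G →* End M) :
    (T.InjectiveIn I M ↔ Covered (T.InjectiveIn I) a) ∧
    (∀ (H : Subgroup G) (ι : Type) (D : ι → Subgroup G), Dominates (T.InjectiveIn I) a H D →
      (∀ j, OnQuotient (T.InjectiveIn I) a (D j)) → OnQuotient (T.InjectiveIn I) a H) ∧
    QuotientLaws (T.InjectiveIn I M) (OnQuotient (T.InjectiveIn I) a) ∧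
    (¬ T.InjectiveIn I M → AtPrimes (OnQuotient (T.InjectiveIn I) a) →
      FreeOccurs (T.InjectiveIn I) a ∧ CyclicSubgroups G) ∧
    ∀ m, T.DimensionFormula a m :=
  injectivity T I a

end Pool.Agent.Results.MP_a1cc03_ag.GroupActions
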