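import Pool.Agent.U935.AJR.Main

/-!
# Injectivity of the Abel-Jacobi maps and rational varieties

`𝒱` is a class of smooth proper varieties over a field `k` (for the problem, the smooth projective
varieties over a number field) which is closed under products. `C` has the formal properties of the
Chow groups with rational coefficients of these varieties (`IsChowProj`), `H` those of a Weil
cohomology theory with cycle class maps (`IsWeilProj`), and `A` those of the Abel-Jacobi maps
(`AbelJacobi`). `AJInj A X m` says that the Abel-Jacobi map is injective on the homologically trivial
classes of codimension `m` on `X`, with rational coefficients.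

The theorem: for every `m` the following are equivalent.
* The Abel-Jacobi maps are injective in codimension at most `m`, for all varieties.
* The Abel-Jacobi maps are injective in codimension at most `m + 1`, for all varieties of the class
  `Ratl` (the smallest class which contains the varieties without homologically trivial cycles and is
  closed under blow-ups in smooth centres and under domination; it contains the unirational
  varieties).
* The Abel-Jacobi maps are injective in codimension at most `m + 1` for the members of a class `S`
  inside `Ratl`, such that every variety is the centre of a blow-up `Y ∈ S`; for instance for the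
  blow-ups of projective spaces in one smooth subvariety.

For `m = 1` the first statement is known, so the Abel-Jacobi maps are injective in codimension two
for all unirational varieties (this is known, too, by Bloch and Srinivas). The conjecture of the
problem for all varieties and cycles of codimension two is the injectivity for cycles of codimension
three on rational varieties, and so on; the conjecture for all varieties is equivalent to the
conjecture for rational varieties.
-/

set_option autoImplicit false

namespace Pool.Agent.Results.MP_a1cc03_ag.RationalVarietiesShift

open Pool.Agent.H914 Pool.Agent.H914.VarClass Pool.Agent.W492.BB Pool.Agent.U644.BBL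
  Pool.Agent.U435.BB Pool.Agent.TH133 Pool.Agent.U935.BBR Pool.Agent.U935.AJR

universe u v w

/-- Let `S` be a class of varieties in the class `Ratl`, such that every variety `X` is the centre of
a blow-up `Y ∈ S`. For every `m` the following are equivalent: the Abel-Jacobi maps are injective in
codimension at most `m` for all varieties; they are injective in codimension at most `m + 1` for all
varieties of the class `Ratl`; they are injective in codimension at most `m + 1` for all `Y ∈ S`. -/
theorem result {k : Type u} [Field k] {𝒱 : VarClass k} {C : TheoryData.{u, v, 0} 𝒱 ℚ} {K : Type w}
    [Field K] {H : WeilTheoryData.{u, v, w} C K} [IsChowProj C] [IsWeilProj H] (A : AbelJacobi H)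
    (S : Set 𝒱.Obj) (hS : ∀ X, ∃ Y ∈ S, ∃ P, BlowUpOf C X P Y)
    (hS' : ∀ Y ∈ S, Ratl H Y) (m : ℕ) :
    List.TFAE [∀ X : 𝒱.Obj, ∀ j ≤ m, AJInj A X j,
      ∀ Y : 𝒱.Obj, Ratl H Y → ∀ j ≤ m + 1, AJInj A Y j,
      ∀ Y ∈ S, ∀ j ≤ m + 1, AJInj A Y j] :=
  tfae_codim A S hS hS' m

end Pool.Agent.Results.MP_a1cc03_ag.RationalVarietiesShift
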